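import Pool.Agent.helper36.PP.SpecA

set_option autoImplicit false

open Complex Metric Set Filter Topology MeasureTheory MPS

noncomputable section

namespace PPS

variable {k : ℕ} [NeZero k]

/-- the perturbation of `BB` -/
def ERI_q (b d : ZMod k → ℂ) (z : ℂ) : ℂ := ∑ i, d i / (z - b i)

theorem ERI_BB (b g d : ZMod k → ℂ) (z : ℂ) :
    BB b (fun i => g i + d i) z = BB b g z + ERI_q b d z := by
  unfold BB ERI_q
  rw [← Finset.sum_add_distrib]
  refine Finset.sum_congr rfl fun i _ => ?_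
  rw [add_div]
  ring

theorem ERI_TT (f : Polynomial ℂ) (b g d : ZMod k → ℂ) (z : ℂ) :
    TT f (BB b (fun i => g i + d i)) z = TT f (BB b g) z + TT f (ERI_q b d) z := by
  unfold TT
  rw [← Multiset.sum_map_add]
  congr 1
  refine Multiset.map_congr rfl fun y _ => ?_
  rw [ERI_BB, add_div]

theorem ERI_er (f : Polynomial ℂ) (b g d : ZMod k → ℂ) (z : ℂ) :
    er f b (fun i => g i + d i) z = er f b g z + (ERI_q b d z - TT f (ERI_q b d) z) := by
  unfold er
  rw [ERI_BB, ERI_TT]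
  ring

theorem ERI_meas (b d : ZMod k → ℂ) : Measurable (ERI_q b d) := by
  unfold ERI_q
  exact Finset.measurable_fun_sum _ fun i _ =>
    measurable_const.div (measurable_id.sub measurable_const)

theorem ERI_measTT (hMI : MI_stmt) {f : Polynomial ℂ} (hf : 1 ≤ f.natDegree) (b d : ZMod k → ℂ) :
    Measurable (TT f (ERI_q b d)) := by
  have h1 := (hMI k f b (fun i => (0 : ℂ) + d i) hf).2.1
  have h2 := (hMI k f b (fun _ => (0 : ℂ)) hf).2.1
  have h3 : TT f (ERI_q b d) = fun z => TT f (BB b (fun i => (0 : ℂ) + d i)) z -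
      TT f (BB b (fun _ => (0 : ℂ))) z := by
    funext z
    rw [ERI_TT f b (fun _ => (0 : ℂ)) d z]
    ring
  rw [h3]
  exact h1.sub h2

theorem ERI_int (hM : MPS.MI_stmt) (b d : ZMod k → ℂ) (R : ℝ) (hR : 0 ≤ R) :
    IntegrableOn (ERI_q b d) (ball 0 R) := by
  have h1 : ∀ i : ZMod k, IntegrableOn (fun z : ℂ => ‖d i‖ * (1 / ‖z - b i‖)) (ball 0 R) := by
    intro i
    have hs : ball (0 : ℂ) R ⊆ ball (b i) (R + ‖b i‖) := by
      refine ball_subset_ball' ?_
      rw [dist_eq_norm, zero_sub, norm_neg]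
    exact ((hM.2 (b i) (R + ‖b i‖) (by positivity)).1.mono_set hs).const_mul _
  have h2 : IntegrableOn (fun z : ℂ => ∑ i, ‖d i‖ * (1 / ‖z - b i‖)) (ball 0 R) :=
    integrable_finsetSum _ fun i _ => h1 i
  refine Integrable.mono' h2 (ERI_meas b d).aestronglyMeasurable
    (Filter.Eventually.of_forall fun z => ?_)
  unfold ERI_q
  refine (norm_sum_le _ _).trans (Finset.sum_le_sum fun i _ => ?_)
  rw [norm_div, mul_one_div]

theorem ERI_intTT (hMI : MI_stmt) (hM : MPS.MI_stmt) (hTL : TL1_stmt) {f : Polynomial ℂ}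
    (hf : 1 ≤ f.natDegree) (b d : ZMod k → ℂ) (R : ℝ) (hR : 0 ≤ R)
    (hinv : ∀ y : ℂ, ‖f.eval y‖ < R → ‖y‖ < R) :
    IntegrableOn (TT f (ERI_q b d)) (ball 0 R) ∧
      ∫ z in ball (0 : ℂ) R, ‖TT f (ERI_q b d) z‖ ≤ ∫ z in ball (0 : ℂ) R, ‖ERI_q b d z‖ := by
  have h1 := ERI_int hM b d R hR
  have h2 := hTL f R (ERI_q b d) hf hinv (ERI_meas b d)
  have h3 : ∫⁻ z in ball (0 : ℂ) R, ENNReal.ofReal ‖ERI_q b d z‖ < ⊤ := by
    have := h1.2
    rw [HasFiniteIntegral] at this
    simpa only [ofReal_norm] using this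
  have h4 : IntegrableOn (TT f (ERI_q b d)) (ball 0 R) := by
    refine ⟨(ERI_measTT hMI hf b d).aestronglyMeasurable, ?_⟩
    rw [HasFiniteIntegral]
    have := h2.trans_lt h3
    simpa only [ofReal_norm] using this
  refine ⟨h4, ?_⟩
  rw [integral_norm_eq_lintegral_enorm h4.1, integral_norm_eq_lintegral_enorm h1.1]
  simp only [ofReal_norm] at h2 h3
  exact ENNReal.toReal_mono h3.ne h2

theorem ERI (hTG : TG_stmt) (hERQ : ERQ_stmt) (hTL : TL1_stmt) (hMI : MI_stmt)
    (hM : MPS.MI_stmt) : ERI_stmt := by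
  intro n k _ f b g R hn hdeg hcyc hrho hR hinv
  have hf : 1 ≤ f.natDegree := by omega
  obtain ⟨g₀, hg₀, -⟩ := hTG n k f b hn hdeg hcyc hrho
  have hcont : Continuous (QQ f b g₀) := by
    unfold QQ
    fun_prop
  obtain ⟨C, hC⟩ := (isCompact_closedBall (0 : ℂ) R).exists_bound_of_continuousOn
    hcont.continuousOn
  have hI0 : IntegrableOn (er f b g₀) (ball 0 R) :=
    ((hERQ n k f b g₀ hn hdeg hcyc hg₀).2 R C hR hinv (fun y hy => hC y (by simpa using hy))).1
  have hI : IntegrableOn (er f b g) (ball 0 R) := by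
    have h1 := ERI_int hM b (fun i => g i - g₀ i) R hR.le
    have h2 := (ERI_intTT hMI hM hTL hf b (fun i => g i - g₀ i) R hR.le hinv).1
    have h3 : er f b g = fun z => er f b g₀ z + (ERI_q b (fun i => g i - g₀ i) z -
        TT f (ERI_q b (fun i => g i - g₀ i)) z) := by
      funext z
      rw [← ERI_er]
      congr 1
      funext i
      ring
    rw [h3]
    exact hI0.add (h1.sub h2)
  refine ⟨hI, ?_⟩
  intro η hη
  set I : ℝ := ∫ z in ball (0 : ℂ) R, ‖ERI_q b (fun _ : ZMod k => (1 : ℂ)) z‖ with hIdef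
  have hI1 : 0 ≤ I := integral_nonneg fun z => norm_nonneg _
  set S : ℂ := ∑ i, g i with hS
  have key : ∀ ν : ℂ, 2 * ‖ν‖ * I ≤ η → S + k * ν ≠ 0 →
      ∃ g' : ZMod k → ℂ, (∑ i, g' i ≠ 0) ∧
      ∫ z in ball (0 : ℂ) R, ‖er f b g' z‖ ≤ (∫ z in ball (0 : ℂ) R, ‖er f b g z‖) + η := by
    intro ν hν hne
    refine ⟨fun i => g i + ν, ?_, ?_⟩
    · rw [Finset.sum_add_distrib, ← hS, Finset.sum_const, Finset.card_univ, ZMod.card,
        nsmul_eq_mul]
      exact hne
    · have hq : ∀ z, ERI_q b (fun _ : ZMod k => ν) z = ν * ERI_q b (fun _ : ZMod k => (1 : ℂ)) z := by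
        intro z
        unfold ERI_q
        rw [Finset.mul_sum]
        refine Finset.sum_congr rfl fun i _ => ?_
        ring
      have h1 := ERI_int hM b (fun _ : ZMod k => ν) R hR.le
      have h2 := ERI_intTT hMI hM hTL hf b (fun _ : ZMod k => ν) R hR.le hinv
      have h3 : ∫ z in ball (0 : ℂ) R, ‖ERI_q b (fun _ : ZMod k => ν) z‖ = ‖ν‖ * I := by
        rw [hIdef, ← integral_const_mul]
        refine integral_congr_ae (Filter.Eventually.of_forall fun z => ?_)
        simp only [hq z, norm_mul]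
      have h4 : ∫ z in ball (0 : ℂ) R, ‖er f b (fun i => g i + ν) z‖ ≤
          ∫ z in ball (0 : ℂ) R, (‖er f b g z‖ + (‖ERI_q b (fun _ : ZMod k => ν) z‖ +
            ‖TT f (ERI_q b (fun _ : ZMod k => ν)) z‖)) := by
        refine integral_mono_of_nonneg (Filter.Eventually.of_forall fun z => norm_nonneg _)
          (hI.norm.add (h1.norm.add h2.1.norm)) (Filter.Eventually.of_forall fun z => ?_)
        simp only
        rw [ERI_er f b g (fun _ => ν) z]
        exact (norm_add_le _ _).trans (add_le_add le_rfl (norm_sub_le _ _))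
      have h6 : ∫ z in ball (0 : ℂ) R, (‖er f b g z‖ + (‖ERI_q b (fun _ : ZMod k => ν) z‖ +
            ‖TT f (ERI_q b (fun _ : ZMod k => ν)) z‖)) =
          (∫ z in ball (0 : ℂ) R, ‖er f b g z‖) +
            ∫ z in ball (0 : ℂ) R, (‖ERI_q b (fun _ : ZMod k => ν) z‖ +
            ‖TT f (ERI_q b (fun _ : ZMod k => ν)) z‖) :=
        integral_add hI.norm (h1.norm.add h2.1.norm)
      have h7 : ∫ z in ball (0 : ℂ) R, (‖ERI_q b (fun _ : ZMod k => ν) z‖ +
            ‖TT f (ERI_q b (fun _ : ZMod k => ν)) z‖) =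
          (∫ z in ball (0 : ℂ) R, ‖ERI_q b (fun _ : ZMod k => ν) z‖) +
            ∫ z in ball (0 : ℂ) R, ‖TT f (ERI_q b (fun _ : ZMod k => ν)) z‖ :=
        integral_add h1.norm h2.1.norm
      rw [h6, h7] at h4
      have h5 := h2.2
      rw [h3] at h4 h5
      linarith
  -- the choice of the perturbation
  set t : ℝ := η / (4 * (I + 1)) with ht
  have ht0 : 0 < t := by positivity
  have htK : 2 * (2 * t) * I ≤ η := by
    rw [ht]
    have h1 : 2 * (2 * (η / (4 * (I + 1)))) * I = η * (I / (I + 1)) := by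
      field_simp
      ring
    rw [h1]
    have h2 : I / (I + 1) ≤ 1 := by
      rw [div_le_one (by positivity)]
      linarith
    nlinarith
  have hk : (k : ℂ) ≠ 0 := Nat.cast_ne_zero.2 (NeZero.ne k)
  by_cases h0 : S + k * (t : ℂ) = 0
  · refine key ((2 * t : ℝ) : ℂ) ?_ ?_
    · rw [Complex.norm_real, Real.norm_eq_abs, abs_of_pos (by positivity)]
      exact htK
    · intro h1
      have h2 : (k : ℂ) * t = 0 := by
        push_cast at h1
        linear_combination h1 - h0
      rcases mul_eq_zero.1 h2 with h3 | h3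
      · exact hk h3
      · rw [Complex.ofReal_eq_zero] at h3
        exact ht0.ne' h3
  · refine key (t : ℂ) ?_ h0
    rw [Complex.norm_real, Real.norm_eq_abs, abs_of_pos ht0]
    nlinarith

end PPS
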