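import Pool.Agent.helper36.PP.SpecD

/-! # Project pp, module FRQ: transport of flat discs -/

set_option autoImplicit false

open Complex Metric Set Filter Topology MeasureTheory MPS

noncomputable section

namespace PPS

theorem FRQ (hTR : TR_stmt) (hNOSL : MPS.NOSL_stmt) (hSHF : SHF_stmt) (hPHW : PHW_stmt)
    (hP1W : P1W_stmt) (hKRE : KRE_stmt) (hROTQ : ROTQ_stmt) : FRQ_stmt := by
  intro n ρ₀ ra hn h0 h1 hra
  obtain ⟨ρ₁, hρ₁⟩ : ∃ ρ₁, ρ₁ = ρ₀ / 16 := ⟨_, rfl⟩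
  obtain ⟨δ, hδ⟩ : ∃ δ, δ = ρ₁ / 1000 := ⟨_, rfl⟩
  have hρpos : 0 < ρ₁ := by rw [hρ₁]; positivity
  have hδpos : 0 < δ := by rw [hδ]; positivity
  have h16 : 16 * ρ₁ = ρ₀ := by rw [hρ₁]; ring
  have hδ20 : δ ≤ 1 / 20 := by rw [hδ]; linarith
  obtain ⟨R₁, hR₁4, ε₁, hε₁pos, hPH⟩ := hPHW n ρ₁ ra hn hρpos (by rw [h16]; exact h1) hra
  obtain ⟨R₂, hR₂4, ε₂, hε₂pos, hP1⟩ := hP1W n δ ra hn hδpos hδ20 hra
  obtain ⟨R₃, hR₃4, ε₃, hε₃pos, hKR⟩ := hKRE n δ ra hn hδpos hδ20 hra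
  refine ⟨max R₁ (max R₂ R₃), hR₁4.trans_le (le_max_left _ _),
    min (min ε₁ (min ε₂ ε₃)) (min (δ ^ 2 / 1024) (ρ₁ * δ / 10 ^ 6)),
    lt_min (lt_min hε₁pos (lt_min hε₂pos hε₃pos)) (lt_min (by positivity) (by positivity)), ?_⟩
  intro k _ f b g ψ R ε su hR hε i q y hq hF
  have hRa : R₁ ≤ R := (le_max_left _ _).trans hR
  have hRb : R₂ ≤ R := ((le_max_left _ _).trans (le_max_right _ _)).trans hR
  have hRc : R₃ ≤ R := ((le_max_right _ _).trans (le_max_right _ _)).trans hR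
  have hεa : ε ≤ ε₁ := hε.trans ((min_le_left _ _).trans (min_le_left _ _))
  have hεb : ε ≤ ε₂ := hε.trans ((min_le_left _ _).trans ((min_le_right _ _).trans (min_le_left _ _)))
  have hεc : ε ≤ ε₃ := hε.trans ((min_le_left _ _).trans ((min_le_right _ _).trans (min_le_right _ _)))
  have hεd : ε ≤ δ ^ 2 / 1024 := hε.trans ((min_le_right _ _).trans (min_le_left _ _))
  have hεe : ε ≤ ρ₁ * δ / 10 ^ 6 := hε.trans ((min_le_right _ _).trans (min_le_right _ _))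
  have hmono : ∀ (j : ZMod k) (y r r' : ℝ), r' ≤ r → Flat b g (ψ j) y r → Flat b g (ψ j) y r' :=
    fun j y r r' h1 h2 => (hNOSL k b g j (ψ j) (su.mx j).pn).2.2.2.2 y r r' h1 h2
  have hper : ∀ (j : ZMod k) (y r : ℝ) (m : ℤ), Flat b g (ψ j) (y + m * (2 * Real.pi)) r ↔
      Flat b g (ψ j) y r := fun j y r m => (hNOSL k b g j (ψ j) (su.mx j).pn).2.1 y r m
  rcases Nat.eq_zero_or_pos q with rfl | hq1
  · have e1 : (Kq f b ψ i 0).arg = 0 := by
      unfold Kq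
      simp only [Nat.cast_zero, sub_zero]
      rw [Finset.Icc_eq_empty (by norm_num), Finset.prod_empty, mul_one]
      by_cases hd : deriv (ψ i) 0 = 0
      · rw [hd]; simp
      · rw [div_self hd]; simp
    rw [e1, add_zero]
    simp only [Nat.cast_zero, sub_zero]
    exact hmono i y ρ₀ (ρ₀ / 64) (by linarith) hF
  obtain ⟨su', -, -, hflat⟩ := hTR n k f b g ψ ra R ε i su
  obtain ⟨χ, hnat, hext⟩ : Flat (fun j => b (i + j)) (fun j => g (i + j)) (ψ i) y ρ₀ := by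
    rw [hflat]
    exact hF
  have hext' : EqOn χ (hat ((fun j => ψ (i + j)) 0)) (HP 0) := by
    simpa using hext
  obtain ⟨ps, G1, r, G, hr, hH2⟩ := hPH k f (fun j => b (i + j)) (fun j => g (i + j))
    (fun j => ψ (i + j)) R ε su' hRa hεa y χ (by rw [h16]; exact hnat) hext'
  obtain ⟨G', hG'⟩ := hP1 k f (fun j => b (i + j)) (fun j => g (i + j))
    (fun j => ψ (i + j)) R ε su' hRb hεb
  have hK := hKR k f (fun j => b (i + j)) (fun j => g (i + j))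
    (fun j => ψ (i + j)) R ε su' hRc hεc 0
  obtain ⟨κ, Φ, χ', hexp, -, -, hnat', hext2, -⟩ := hROTQ n k f (fun j => b (i + j))
    (fun j => g (i + j)) (fun j => ψ (i + j)) ra R ε y ρ₁ r δ χ G1 ps G G' hH2 hr hG' hδ.le hεd hεe hK
    q hq1 hq
  have hfl : Flat b g (ψ (i + -(q : ZMod k))) (y + κ.im) (ρ₁ / 4) := by
    rw [← hflat]
    exact ⟨χ', hnat', hext2⟩
  have hKq : Complex.exp κ = Kq f b ψ i q := by
    rw [hexp, (hSHF k f b g ψ i).1 0 q, add_zero]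
  have hne : Kq f b ψ i q ≠ 0 := by
    rw [← hKq]
    exact Complex.exp_ne_zero _
  obtain ⟨m, hm⟩ : ∃ m : ℤ, κ = Complex.log (Kq f b ψ i q) + m * (2 * Real.pi * I) := by
    rw [← Complex.exp_eq_exp_iff_exists_int, Complex.exp_log hne]
    exact hKq
  have him : κ.im = (Kq f b ψ i q).arg + m * (2 * Real.pi) := by
    rw [hm]
    simp [Complex.log_im]
  rw [him, ← add_assoc, hper, ← sub_eq_add_neg] at hfl
  have e64 : ρ₁ / 4 = ρ₀ / 64 := by rw [hρ₁]; ring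
  rwa [e64] at hfl

end PPS
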