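import Pool.Agent.helper25.PP.Spec

set_option autoImplicit false

namespace PP

open Finset SimpleGraph CT

theorem CN : CN_stmt := by
  intro W _ _ H hW hH
  classical
  obtain ⟨w⟩ := hW
  have hnp : ¬ H.Preconnected := fun h => hH ((SimpleGraph.connected_iff H).2 ⟨h, ⟨w⟩⟩)
  have hex : ∃ a b : W, ¬ H.Reachable a b := by
    by_contra hc
    apply hnp
    intro a b
    by_contra hab
    exact hc ⟨a, b, hab⟩
  obtain ⟨a, b, hab⟩ := hex
  refine ⟨univ.filter fun z => H.Reachable a z, ⟨a, ?_⟩, ⟨b, ?_⟩, ?_⟩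
  · rw [Finset.mem_filter]
    exact ⟨Finset.mem_univ _, SimpleGraph.Reachable.refl a⟩
  · rw [Finset.mem_compl, Finset.mem_filter]
    exact fun h => hab h.2
  · intro x hx y hy hxy
    rw [Finset.mem_filter] at hx
    apply hy
    rw [Finset.mem_filter]
    exact ⟨Finset.mem_univ _, hx.2.trans hxy.reachable⟩

end PP
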